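import Pool.Agent.Helper18.RD.Stmts

/-! Row LOW of project RD: lower bound for `QQ` at a good tuple. -/

set_option autoImplicit false

namespace Pool.Agent.Helper18.RD

open Finset

theorem low_jprod {K : ℕ} (a : ℤ) (t : Fin K → ℕ) (ht : ∀ i, t i ≠ 0) (s : Finset (Fin K)) :
    jacobiSym a (∏ i ∈ s, t i) = ∏ i ∈ s, jacobiSym a (t i) := by
  classical
  induction s using Finset.induction_on with
  | empty => simp
  | insert i s hi ih =>
    rw [Finset.prod_insert hi, Finset.prod_insert hi, ← ih]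
    exact jacobiSym.mul_right' a (ht i) (Finset.prod_ne_zero_iff.2 fun j _ => ht j)

theorem low_ne {q p : ℕ} (h : p ∈ OP q) : p ≠ 0 :=
  (Nat.prime_of_mem_primeFactors (Finset.mem_of_mem_erase h)).ne_zero

theorem low_sign {K : ℕ} (g : Fin K → ℤ) (h : ∀ i, g i = 1 ∨ g i = -1) :
    (∏ i, g i) = 1 ∨ (∏ i, g i) = -1 := by
  classical
  have : ∀ s : Finset (Fin K), (∏ i ∈ s, g i) = 1 ∨ (∏ i ∈ s, g i) = -1 := by
    intro s
    induction s using Finset.induction_on with
    | empty => simp
    | insert i s hi ih =>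
      rw [Finset.prod_insert hi]
      rcases h i with h1 | h1 <;> rcases ih with h2 | h2 <;> simp [h1, h2]
  exact this Finset.univ

theorem st_LOW (hCS : ST_CS) : ST_LOW := by
  classical
  intro N q S e c d k w K t t' X Y hD hK ht ht' hX hY hXe hYe
  set r := ∏ i, t i with hr
  set r' := ∏ i, t' i with hr'
  let A : ℕ → ℕ → ℤ := fun n n' =>
    if n = n' then 0 else jacobiSym (c n n') r * jacobiSym (d n n') r'
  choose f lam mu hf hlam hmu hchi using fun i => hD.chi (t i) (ht i)
  choose f' lam' mu' hf' hlam' hmu' hchi' using fun i => hD.chi (t' i) (ht' i)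
  let F : ℕ → ℤ := fun n => (∏ i, f i n) * ∏ i, f' i n
  let κ : ℤ := (∏ i, mu i 1) * ∏ i, lam' i 1
  have hF : ∀ n, F n = 1 ∨ F n = -1 := by
    intro n
    rcases low_sign (fun i => f i n) (fun i => hf i n) with h1 | h1 <;>
      rcases low_sign (fun i => f' i n) (fun i => hf' i n) with h2 | h2 <;>
      simp only [F, h1, h2] <;> norm_num
  have hκ : κ = 1 ∨ κ = -1 := by
    rcases low_sign (fun i => mu i 1) (fun i => hmu i 1) with h1 | h1 <;>
      rcases low_sign (fun i => lam' i 1) (fun i => hlam' i 1) with h2 | h2 <;>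
      simp only [κ, h1, h2] <;> norm_num
  have hA : ∀ n ∈ X, ∀ n' ∈ Y, A n n' = κ * F n * F n' := by
    intro n hn n' hn'
    have hne : n ≠ n' := by
      rintro rfl
      have h1 := (hXe n hn ⟨0, hK⟩).1
      have h2 := (hYe n hn' ⟨0, hK⟩).1
      rw [h1] at h2
      norm_num at h2
    have hc : ∀ i, jacobiSym (c n n') (t i) = mu i 1 * f i n * f i n' := by
      intro i
      have h1 := (hXe n hn i).1
      have h2 := (hYe n' hn' i).1
      have h3 := (hchi i n (hX hn) n' (hY hn') hne).2 (by rw [h1, h2]; norm_num)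
      rw [h3, h1]
    have hd : ∀ i, jacobiSym (d n n') (t' i) = lam' i 1 * f' i n * f' i n' := by
      intro i
      have h1 := (hXe n hn i).2
      have h2 := (hYe n' hn' i).2
      have h3 := (hchi' i n (hX hn) n' (hY hn') hne).1 (by rw [h1, h2])
      rw [h3, h1]
    have e1 : jacobiSym (c n n') r = (∏ i, mu i 1) * (∏ i, f i n) * ∏ i, f i n' := by
      rw [hr, low_jprod _ _ (fun i => low_ne (ht i)), ← Finset.prod_mul_distrib,
        ← Finset.prod_mul_distrib]
      exact Finset.prod_congr rfl fun i _ => hc i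
    have e2 : jacobiSym (d n n') r' = (∏ i, lam' i 1) * (∏ i, f' i n) * ∏ i, f' i n' := by
      rw [hr', low_jprod _ _ (fun i => low_ne (ht' i)), ← Finset.prod_mul_distrib,
        ← Finset.prod_mul_distrib]
      exact Finset.prod_congr rfl fun i _ => hd i
    simp only [A, if_neg hne, e1, e2, κ, F]
    ring
  refine (hCS S X Y A F F κ hX hY hF hF hκ hA).trans (le_of_eq ?_)
  -- both sides are sums over all quadruples
  have h1 : ∀ n1 n2 : ℕ, (∑ n' ∈ S, A n1 n' * A n2 n') ^ 2 =
      ∑ n' ∈ S, ∑ n'' ∈ S, A n1 n' * A n2 n' * (A n1 n'' * A n2 n'') := by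
    intro n1 n2
    rw [sq, Finset.sum_mul_sum]
  simp only [h1]
  unfold QQ T4
  rw [Finset.sum_filter, Finset.sum_product]
  refine Finset.sum_congr rfl fun n1 _ => ?_
  rw [Finset.sum_product]
  refine Finset.sum_congr rfl fun n2 _ => ?_
  rw [Finset.sum_product]
  refine Finset.sum_congr rfl fun n' _ => ?_
  refine Finset.sum_congr rfl fun n'' _ => ?_
  simp only [A, cyc]
  by_cases a1 : n1 = n'
  · simp [a1]
  by_cases a2 : n1 = n''
  · simp [a2]
  by_cases a3 : n2 = n'
  · simp [a3]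
  by_cases a4 : n2 = n''
  · simp [a4]
  rw [if_neg a1, if_neg a2, if_neg a3, if_neg a4,
    if_pos (show n1 ≠ n' ∧ n1 ≠ n'' ∧ n2 ≠ n' ∧ n2 ≠ n'' from ⟨a1, a2, a3, a4⟩)]
  simp only [jacobiSym.mul_left]
  ring

end Pool.Agent.Helper18.RD
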